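import Mathlib
import Pool.Agent.Y667.OG.Field

/-!
# The numbers of places of a Galois field over a subfield
-/

set_option autoImplicit false

namespace Pool.Agent.X293.GX

open NumberField Ideal

/-- an even number of primes over `p` in `M` gives an even number in `K` -/
theorem even_primes (M K : Type) [Field M] [NumberField M] [Field K] [NumberField K] [Algebra M K]
    [IsGalois ℚ M] [IsGalois ℚ K] {p : ℕ} (hp : p.Prime)
    (h : Even (primesOver (span {(p : ℤ)}) (𝓞 M)).ncard) :
    Even (primesOver (span {(p : ℤ)}) (𝓞 K)).ncard := by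
  have : Fact p.Prime := ⟨hp⟩
  have hmax : (span {(p : ℤ)}).IsMaximal := Int.ideal_span_isMaximal_of_prime p
  have hprime : (span {(p : ℤ)}).IsPrime := hmax.isPrime
  obtain ⟨⟨P, hP1, hP2⟩⟩ := (inferInstance : Nonempty (primesOver (span {(p : ℤ)}) (𝓞 M)))
  rw [← ncard_primesOver_mul_ncard_primesOver P Gal(M/ℚ) (𝓞 K) Gal(K/ℚ)]
  exact h.mul_right _

/-- the number of infinite places of a Galois field of degree divisible by four is even -/
theorem even_places (K : Type) [Field K] [NumberField K] [IsGalois ℚ K]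
    (h4 : 4 ∣ Module.finrank ℚ K) : Even (Nat.card (InfinitePlace K)) := by
  classical
  obtain ⟨w⟩ := (inferInstance : Nonempty (InfinitePlace K))
  have h1 : MulAction.orbit Gal(K/ℚ) w = Set.univ := by
    rw [Set.eq_univ_iff_forall]
    intro w'
    obtain ⟨σ, hσ⟩ := InfinitePlace.exists_smul_eq_of_comap_eq (k := ℚ) (w := w) (w' := w')
      (Subsingleton.elim _ _)
    exact ⟨σ, hσ⟩
  have h2 : Nat.card (MulAction.orbit Gal(K/ℚ) w) *
      Nat.card (MulAction.stabilizer Gal(K/ℚ) w) = Nat.card Gal(K/ℚ) := by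
    rw [← Nat.card_prod]
    exact Nat.card_congr (MulAction.orbitProdStabilizerEquivGroup _ _)
  rw [h1, Nat.card_univ, IsGalois.card_aut_eq_finrank] at h2
  obtain ⟨n, hn⟩ := h4
  rcases InfinitePlace.nat_card_stabilizer_eq_one_or_two ℚ w with h3 | h3
  · rw [h3, mul_one, hn] at h2
    exact ⟨2 * n, by omega⟩
  · rw [h3, hn] at h2
    exact ⟨n, by omega⟩

end Pool.Agent.X293.GX
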