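import Mathlib
import Pool.Agent.X293.PT.Main
import Pool.Agent.X156.PR.Desc

/-!
# The parity of the rank over Galois extensions with a normal 2-complement
-/

set_option autoImplicit false

open scoped Classical

namespace Pool.Agent.X293.GX

open NumberField Module Pool.Agent.X156.PR Pool.Agent.X293.PT

/-- If all the quadratic extensions of `k` in `L` are contained in `M` and the rank over `M` is zero,
then the rank over `L` is even, when the Galois group has a normal subgroup of odd order and index a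
power of two. -/
theorem even_rank_base (k M L : Type) [Field k] [NumberField k] [Field M] [NumberField M] [Field L]
    [NumberField L] [Algebra k M] [Algebra k L] [Algebra M L] [IsScalarTower k M L]
    [IsGalois k L] (W : WeierstrassCurve k) (hW : W.Δ ≠ 0) (h0 : rank (W.baseChange M) = 0)
    (N : Subgroup (L ≃ₐ[k] L)) [N.Normal] (hN : Odd (Nat.card N)) {n : ℕ}
    (hn : N.index = 2 ^ (n + 1))
    (hq : ∀ F : IntermediateField k L, finrank k F = 2 → ∀ x ∈ F, x ∈ (algebraMap M L).range) :
    Even (rank (W.baseChange L)) := by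
  have hfd : FiniteDimensional k L := Module.Finite.of_restrictScalars_finite ℚ k L
  have hW' : (W.baseChange L).Δ ≠ 0 := by
    rw [WeierstrassCurve.baseChange, WeierstrassCurve.map_Δ]
    exact (map_ne_zero _).2 hW
  have hfg := Grp_finite (W.baseChange L) hW'
  have h1 := parity_rank (A := Grp (W.baseChange L)) N hN hn
  have h2 : ∀ K ∈ (Set.toFinite {K : Subgroup (L ≃ₐ[k] L) | K.index = 2}).toFinset,
      (finrank ℤ (fixA (A := Grp (W.baseChange L)) K) : ZMod 2) = 0 := by
    intro K hK
    rw [Set.Finite.mem_toFinset, Set.mem_ofPred_eq] at hK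
    rw [← rank_fix]
    have h3 : finrank k (IntermediateField.fixedField K) = 2 := by
      rw [IntermediateField.finrank_eq_fixingSubgroup_index,
        IntermediateField.fixingSubgroup_fixedField, hK]
    have h4 := hq _ h3
    let g : M →ₐ[k] L := (Algebra.ofId M L).restrictScalars k
    have hg : (IntermediateField.fixedField K).val.range ≤ g.range := by
      rintro _ ⟨x, rfl⟩
      obtain ⟨y, hy⟩ := h4 x x.2
      exact ⟨y, hy⟩
    let e : IntermediateField.fixedField K →ₐ[k] M :=
      ((AlgEquiv.ofInjectiveField g).symm : g.range →ₐ[k] M).comp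
        ((Subalgebra.inclusion hg).comp ((IntermediateField.fixedField K).val.rangeRestrict))
    have hWM : (W.baseChange M).Δ ≠ 0 := by
      rw [WeierstrassCurve.baseChange, WeierstrassCurve.map_Δ]
      exact (map_ne_zero _).2 hW
    have hfM := Grp_finite (W.baseChange M) hWM
    have h5 := LinearMap.finrank_le_finrank_of_injective (f := (mp W e).toIntLinearMap)
      (mp_inj W e)
    have h6 : rank (W.baseChange (IntermediateField.fixedField K)) = 0 := by
      rw [rank_eq]
      refine Nat.le_zero.1 (h5.trans (le_of_eq ?_))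
      rw [← rank_eq]
      exact h0
    rw [h6]
    rfl
  rw [Finset.sum_eq_zero h2] at h1
  rw [rank_eq]
  exact (ZMod.natCast_eq_zero_iff_even).1 h1

lemma EQ_ne (K : Type) [Field K] [NumberField K] {c : ℤ × ℤ}
    (hD : 4 * c.1 ^ 3 + 27 * c.2 ^ 2 ≠ 0) : (EQ K c.1 c.2).Δ ≠ 0 := by
  have e : (EQ K c.1 c.2).Δ = (((-16) * (4 * c.1 ^ 3 + 27 * c.2 ^ 2) : ℤ) : K) := by
    unfold EQ
    simp only [WeierstrassCurve.Δ, WeierstrassCurve.b₂, WeierstrassCurve.b₄,
      WeierstrassCurve.b₆, WeierstrassCurve.b₈]
    push_cast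
    ring
  rw [e, Int.cast_ne_zero]
  exact mul_ne_zero (by norm_num) hD

lemma rank_bc (K : Type) [Field K] [NumberField K] (c : ℤ × ℤ) :
    rank ((EQ ℚ c.1 c.2).baseChange K) = rkE K c := by
  have e1 : (EQ ℚ c.1 c.2).baseChange K = EQ K c.1 c.2 := eq_map ℚ K c.1 c.2
  rw [e1]
  rfl

/-- the case of the curves over the rationals -/
theorem even_rank (M L : Type) [Field M] [NumberField M] [Field L] [NumberField L] [Algebra M L]
    [IsGalois ℚ L] {c : ℤ × ℤ} (hD : 4 * c.1 ^ 3 + 27 * c.2 ^ 2 ≠ 0) (h0 : rkE M c = 0)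
    (N : Subgroup (L ≃ₐ[ℚ] L)) (hNn : N.Normal) (hN : Odd (Nat.card N)) {n : ℕ}
    (hn : N.index = 2 ^ (n + 1))
    (hq : ∀ F : IntermediateField ℚ L, finrank ℚ F = 2 → ∀ x ∈ F, x ∈ (algebraMap M L).range) :
    Even (rkE L c) := by
  rw [← rank_bc]
  exact even_rank_base ℚ M L (EQ ℚ c.1 c.2) (EQ_ne ℚ hD) (by rw [rank_bc]; exact h0) N hN hn hq

end Pool.Agent.X293.GX
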